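import Mathlib
import Pool.Agent.H55.QC2

namespace Pool.Agent.Results.MP_76989b_gt.NotFU

open Pool.Agent.H55.QC Filter Topology

/-- A Hausdorff space with `S_1(Ω^s, Γ^s)` whose space of quasicontinuous functions is not
Frechet-Urysohn at some point. -/
theorem result : ∃ (X : Type) (_ : TopologicalSpace X), T2Space X ∧ S1 X ∧
    ∃ f : {f : X → ℝ // IsQC f}, ¬ ∀ A : Set {f : X → ℝ // IsQC f}, f ∈ closure A →
      ∃ g : ℕ → {f : X → ℝ // IsQC f}, (∀ n, g n ∈ A) ∧ Tendsto g atTop (𝓝 f) := by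
  obtain ⟨f, A, h1, h2⟩ := not_fu
  exact ⟨Z, inferInstance, inferInstance, s1, f, fun h => h2 (h A h1)⟩

end Pool.Agent.Results.MP_76989b_gt.NotFU
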